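import Mathlib

/-!
# Project UP (MP_7e34bc_co, Q2): the upper range

THEOREM. `N(n,k) = VV n k = sum_{1 ≤ i ≤ k/2} C(⌈n/2⌉, i) C(⌊n/2⌋, i)` whenever `n * TT n k ≤ C(n, ⌊n/2⌋)` (`TT` is the rest of the Vandermonde sum), in particular for all
`k ≥ n/2 + C sqrt(n log n)`.

RULES. Row `up:XXX`: file `Pool/Agent/<seat>/UP/XXX.lean`, `import Pool.Agent.helper72.UP.Spec`, `set_option autoImplicit false`, `namespace Pool.Agent.helper72.UP`, `open Finset`, theorem line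
as in the note (the other rows are hypotheses, so all rows are independent); auxiliary lemmas with prefix `XXX_`. Mathlib only, no straight double quotes, no convert / congr!, no native_decide.
A FALSE or awkward statement: one line to helper72 at once.
-/

set_option autoImplicit false

namespace Pool.Agent.helper72.UP

open Finset

/-- the term of the Vandermonde sum -/
def uu (n i : ℕ) : ℕ := ((n + 1) / 2).choose i * (n / 2).choose i

/-- the value -/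
def VV (n k : ℕ) : ℕ := ∑ i ∈ Icc 1 (k / 2), uu n i

/-- the tail -/
def TT (n k : ℕ) : ℕ := ∑ i ∈ Ioc (k / 2) (n / 2), uu n i

open Classical in
/-- the number of subsets with sum `T` -/
noncomputable def cnt {α : Type} [Fintype α] (y : α → ℝ) (T : ℝ) : ℕ := #{S : Finset α | ∑ i ∈ S, y i = T}

open Classical in
/-- the number of zero subsums with `1, ..., k` terms -/
noncomputable def zer {n : ℕ} (x : Fin n → ℝ) (k : ℕ) : ℕ :=
  #{s : Finset (Fin n) | s.Nonempty ∧ #s ≤ k ∧ ∑ i ∈ s, x i = 0}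

/-- **VAN** (short). `C(n, h) = sum_{i ≤ h} C(H,i) C(h,h-i)` with `h = n/2`, `H = (n+1)/2`, `H + h = n` (`Nat.add_choose_eq`, `Finset.Nat.sum_antidiagonal_eq_sum_range_succ_mk`), `C(h,h-i) = C(h,i)` (`Nat.choose_symm`);
`range (h+1) = {0} ∪ Icc 1 (k/2) ∪ Ioc (k/2) h`. -/
def VAN_stmt : Prop := ∀ n k : ℕ, k ≤ n → 1 + VV n k + TT n k = n.choose (n / 2)

/-- **BAL** (short-medium). Strong induction on `a - b` (wlog `b ≤ a`). If `a ≤ b + 1` both sides are equal. If `b + 2 ≤ a`: `C(a,i) C(b,i) ≤ C(a-1,i) C(b+1,i)` (and `a - 1`, `b + 1` have the same sum): clear if `i > b` (the left side is 0);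
otherwise `C(a,i) (a-i) = a C(a-1,i)` and `C(b+1,i) (b+1-i) = (b+1) C(b,i)`, so with `X = C(a-1,i) C(b,i)` the left side is `X a/(a-i)` and the right side is `X (b+1)/(b+1-i)`, and `a (b+1-i) ≤ (b+1) (a-i)` iff `(b+1) i ≤ a i`. -/
def BAL_stmt : Prop := ∀ a b i : ℕ, a.choose i * b.choose i ≤ ((a + b + 1) / 2).choose i * ((a + b) / 2).choose i

/-- **LPB** (short). `g r = f r / C(m,r) ∈ [0,1]`, `f r = g r * C(m,r) ≤ g r * l + g r * max (C(m,r) - l) 0 ≤ l * g r + max (C(m,r) - l) 0`. Sum over `r`. -/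
def LPB_stmt : Prop := ∀ (m : ℕ) (f : ℕ → ℝ) (l : ℝ), 0 ≤ l → (∀ r ∈ range (m + 1), 0 ≤ f r ∧ f r ≤ (m.choose r : ℝ)) →
  ∑ r ∈ range (m + 1), f r / (m.choose r : ℝ) ≤ 4 →
  ∑ r ∈ range (m + 1), f r ≤ 4 * l + ∑ r ∈ range (m + 1), max ((m.choose r : ℝ) - l) 0

/-- **FOE** (medium). Even `m = 2 h`, `l = C(2h, h+2)`. For `r ≥ h + 2` and for `r + 2 ≤ h` one has `C(2h,r) ≤ l` (unimodality and symmetry; for example by induction from `Nat.choose_succ_right_eq`, or `Nat.choose_le_succ_of_lt_half_left` for the small `r`).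
So only `r = h-1, h, h+1` contribute to the sum: `4 l + (C0 - l) + 2 (C1 - l) = C0 + 2 C1 + l`, `C0 = C(2h,h)`, `C1 = C(2h,h+1) = C(2h,h-1)` (for `h = 0` there is only `r = 0`, `C0 = 1`, `l = 0`, and `2 * 1 ≤ 1 * 2`).
`C1 (h+1) = C0 h`, `l (h+2) = C1 (h-1)`, `C(2h+2,h+1) = 2 C0 + 2 C1` (Pascal twice). Claim `(2h+2)(C0 + 2 C1 + l) ≤ (2h+1)(2 C0 + 2 C1)`; with `C0 = 1`: `(2h+2)(1 + 2h/(h+1) + h(h-1)/((h+1)(h+2))) ≤ (2h+1)(2 + 2h/(h+1))`;
in fact the left side is `(2h+2) * 2 (2h+1)/(h+2)` and the right side is `2 (2h+1)^2/(h+1)`; `(2h+2)(h+1) ≤ (2h+1)(h+2)` iff `2h^2+4h+2 ≤ 2h^2+5h+2`. -/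
def FOE_stmt : Prop := ∀ h : ℕ, (2 * h + 2 : ℝ) * (4 * ((2 * h).choose (h + 2) : ℝ) +
    ∑ r ∈ range (2 * h + 1), max (((2 * h).choose r : ℝ) - ((2 * h).choose (h + 2) : ℝ)) 0) ≤
  (2 * h + 1) * ((2 * h + 2).choose (h + 1) : ℝ)

/-- **FOO** (medium). Odd `m = 2 h + 1`, `l = C(2h+1, h+2)`. For `r ≥ h + 2` and for `r + 1 ≤ h` one has `C(2h+1,r) ≤ l` (symmetry: `C(2h+1,h-1) = l`). So only `r = h, h+1` contribute: `4 l + 2 (D - l) = 2 l + 2 D`, `D = C(2h+1,h) = C(2h+1,h+1)`.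
`l (h+2) = D h`, `C(2h+3,h+1) = l + 3 D` (Pascal twice: `C(2h+1,h-1) + 2 C(2h+1,h) + C(2h+1,h+1)`). Claim `(2h+3)(2 l + 2 D) ≤ (2h+2)(l + 3 D)`: with `D = h + 2`, `l = h`: `(2h+3)(4h+4) ≤ (2h+2)(4h+6)`, equality. -/
def FOO_stmt : Prop := ∀ h : ℕ, (2 * h + 3 : ℝ) * (4 * ((2 * h + 1).choose (h + 2) : ℝ) +
    ∑ r ∈ range (2 * h + 2), max (((2 * h + 1).choose r : ℝ) - ((2 * h + 1).choose (h + 2) : ℝ)) 0) ≤
  (2 * h + 2) * ((2 * h + 3).choose (h + 1) : ℝ)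

/-- **LYF** (medium). The four families `F_t = {S | sum y = t}`, `t = T, T-p, T-q, T-p-q`, are antichains (`y > 0`, `Finset.sum_lt_sum_of_subset`) and pairwise disjoint (`T > T-p > T-q > T-p-q`). `f r = ∑ #(slice r)` of the four families, a real number.
`f r ≤ C(m,r)`: disjoint subfamilies of `powersetCard r univ`. The sum of `f r / C(m,r)`: four times `Finset.lubell_yamamoto_meshalkin_inequality_sum_card_div_choose`. The sum of `f r`: the slices partition the family (`Finset.sum_card_slice`). -/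
def LYF_stmt : Prop := ∀ (α : Type) [Fintype α] (y : α → ℝ) (p q T : ℝ), (∀ i, 0 < y i) → 0 < p → p < q →
  ∃ f : ℕ → ℝ, (∀ r ∈ range (Fintype.card α + 1), 0 ≤ f r ∧ f r ≤ ((Fintype.card α).choose r : ℝ)) ∧
    ∑ r ∈ range (Fintype.card α + 1), f r / ((Fintype.card α).choose r : ℝ) ≤ 4 ∧
    ∑ r ∈ range (Fintype.card α + 1), f r = (cnt y T : ℝ) + cnt y (T - p) + cnt y (T - q) + cnt y (T - p - q)

/-- **SPL** (medium). Split the subsets `S` of `ι` by `S ∩ {i, j}`: `S ↦ S.subtype (fun x => x ≠ i ∧ x ≠ j)` is a bijection from each of the four classes to the subsets of the subtype; the sum changes by `0, y i, y j, y i + y j`.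
(It may be easier to go backwards: the image of `S'` under `Embedding.subtype`, with `∅, {i}, {j}, {i,j}` added; the four images are disjoint and their union is everything.) -/
def SPL_stmt : Prop := ∀ (ι : Type) [Fintype ι] [DecidableEq ι] (y : ι → ℝ) (i j : ι) (T : ℝ), i ≠ j →
  cnt y T = cnt (fun x : {x : ι // x ≠ i ∧ x ≠ j} => y x.1) T + cnt (fun x : {x : ι // x ≠ i ∧ x ≠ j} => y x.1) (T - y i) +
    cnt (fun x : {x : ι // x ≠ i ∧ x ≠ j} => y x.1) (T - y j) + cnt (fun x : {x : ι // x ≠ i ∧ x ≠ j} => y x.1) (T - y i - y j)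

/-- **STA** (short-medium, from LPB, FOE, FOO, LYF, SPL). `m = n - 2` is the cardinality of the subtype (`Fintype.card_subtype`, or `n ≥ 2` as `i ≠ j`); `p = y i`, `q = y j`; LYF, then LPB with `l` of FOE or FOO according to the parity of `m` (`n / 2 = h + 1` in both cases). -/
def STA_stmt : Prop := ∀ (n : ℕ) (y : Fin n → ℝ) (i j : Fin n) (T : ℝ), (∀ a, 0 < y a) → y i < y j →
  n * cnt y T ≤ (n - 1) * n.choose (n / 2)

/-- **FLP** (short). `P = {i | x i < 0}`, `T = ∑ i ∈ P, |x i|`. `s ↦ symmDiff s P` is an involution of the subsets, and `∑ i ∈ symmDiff s P, |x i| = ∑ i ∈ s, x i + T`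
(`∑ i ∈ symmDiff s P, |x i| = ∑_{s \ P} x + ∑_{P \ s} |x|`, `∑_{P \ s} |x| = T - ∑_{P ∩ s} |x| = T + ∑_{P ∩ s} x`). -/
def FLP_stmt : Prop := ∀ (n : ℕ) (x : Fin n → ℝ), ∃ T : ℝ, cnt x 0 = cnt (fun i => |x i|) T

open Classical in
/-- **EQC** (medium). `A = {i | 0 < x i}`, `B = {i | x i < 0}`, every `x i` is `c` or `-c`, so the sum over `s` is `c (#(s ∩ A) - #(s ∩ B))`, zero iff `#(s ∩ A) = #(s ∩ B) =: i`, and then `#s = 2 i`; `1 ≤ #s ≤ k` iff `1 ≤ i ≤ k/2`. For each `i` the sets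
`s` correspond to pairs in `powersetCard i A ×ˢ powersetCard i B` (`s ↦ (s ∩ A, s ∩ B)`, inverse: union). -/
def EQC_stmt : Prop := ∀ (n k : ℕ) (x : Fin n → ℝ) (c : ℝ), 0 < c → (∀ i, |x i| = c) →
  zer x k = ∑ i ∈ Icc 1 (k / 2), (#{a : Fin n | 0 < x a}).choose i * (#{a : Fin n | x a < 0}).choose i

/-- **UPB** (short-medium, from VAN, BAL, STA, FLP, EQC). If all `|x i|` are equal (`n = 0`: `zer x k = 0`), use EQC and BAL (`a + b = n`; no hypothesis on `TT` needed). Otherwise there are `i, j` with `|x i| < |x j|`: FLP and STA give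
`n * cnt x 0 ≤ (n-1) C`, `C = n.choose (n/2)`, and `zer x k + 1 ≤ cnt x 0` (the empty set). With VAN: `n (zer + 1) ≤ (n-1) C` and `n TT ≤ C`, `1 + VV + TT = C` give `n zer ≤ n VV`. -/
def UPB_stmt : Prop := ∀ (n k : ℕ) (x : Fin n → ℝ), k ≤ n → (∀ i, x i ≠ 0) → n * TT n k ≤ n.choose (n / 2) → zer x k ≤ VV n k

/-- The set of the sizes of the unit-free sets of nonzero 0/1 vectors of weight at most `k`. -/
def sizes (n k : ℕ) : Set ℕ :=
  {m : ℕ | ∃ S : Finset (Fin n → ℝ),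
    (∀ v ∈ S, (∀ i, v i = 0 ∨ v i = 1) ∧ v ≠ 0 ∧ (univ.filter (fun i => v i = 1)).card ≤ k) ∧
    (∀ i : Fin n, (Pi.single i 1 : Fin n → ℝ) ∉ Submodule.span ℝ (S : Set (Fin n → ℝ))) ∧
    S.card = m}

/-- **UPC** (short-medium). Every unit-free set gives weights: copy `exists_weights` of Pool/Agent/helper55/NK/Base.lean (20 lines); `v ↦ {i | v i = 1}` is injective on 0/1 vectors and the sum of `x` over this set is `∑ v i x i = 0` (copy from the second part of the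
proof of `uniform_result` there). -/
def UPC_stmt : Prop := ∀ (n k m : ℕ), m ∈ sizes n k → ∃ x : Fin n → ℝ, (∀ i, x i ≠ 0) ∧ m ≤ zer x k

/-- **LOW** (short-medium, from EQC). `x i = 1` for `i < (n+1)/2` and `-1` otherwise; `a = (n+1)/2`, `b = n/2`. `S` = the set of the indicator vectors of the sets counted by `zer x k`; injective, nonzero. Unit-free: all `v` in the span have `∑ v i x i = 0`
(`Submodule.span_induction` or a linear map), but the unit vector `e_i` gives `x i ≠ 0`. -/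
def LOW_stmt : Prop := ∀ n k : ℕ, VV n k ∈ sizes n k

/-- **CRI** (short, from UPB, UPC, LOW). -/
def CRI_stmt : Prop := ∀ n k : ℕ, k ≤ n → n * TT n k ≤ n.choose (n / 2) → IsGreatest (sizes n k) (VV n k)

/-- **RAT** (short-medium). `C(H,i+1) (i+1) = C(H,i) (H-i)` and the same for `h`; `(H - i)(h - i) ≤ (n/2 - i)^2` (real numbers, `H + h = n`); `i ≥ n/4`: `(n/2 - i)/(i+1) ≤ (n/2-i)/i = 1 - (2i - n/2)/i ≤ 1 - (4i - n)/n` (as `i ≤ n/2`),
and `1 - t ≤ exp (-t)`; squared: `exp (-2 (4 i - n)/n)`. -/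
def RAT_stmt : Prop := ∀ n i : ℕ, n ≤ 4 * i → 2 * i ≤ n → 1 ≤ i →
  (uu n (i + 1) : ℝ) ≤ uu n i * Real.exp (-(2 * (4 * (i : ℝ) - n) / n))

/-- **DEC** (short, from RAT). Induction on `d`: `2 (4 (i + d) - n)/n ≥ 8 d/n` and `4 (d+1) d = 4 d (d-1) + 8 d`. If `2 (i + d) > n` both sides of the step: `uu n (i+d+1) = 0`. -/
def DEC_stmt : Prop := ∀ n i d : ℕ, n ≤ 4 * i → 1 ≤ i → 1 ≤ n →
  (uu n (i + d) : ℝ) ≤ uu n i * Real.exp (-(4 * (d : ℝ) * ((d : ℝ) - 1) / n))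

/-- **ASY** (medium, from DEC, VAN). `C = 6`. `n = 1`: `TT = 0`. `n ≥ 2`: `L = sqrt (n log n) ≥ 1`, `i₀ = (n + 3)/4` (`n ≤ 4 i₀ ≤ n + 3`, `i₀ ≥ 1`). For `i > k/2` (`2 i ≥ k + 1`): `i ≥ n/4 + 3 L`, `d = i - i₀ ≥ 3 L - 3/4 ≥ 1`, `d (d - 1) ≥ (3L-1)(3L-2) ≥ L^2/2`,
so `uu n i ≤ uu n i₀ * exp (-2 log n) ≤ C(n,n/2)/n^2` (`uu n i₀ ≤ C(n,n/2)`: it is a term of the sum in VAN with `k = 0` or 0 or `i₀ > n/2` where it is 0). At most `n/2 ≤ n` terms: `TT ≤ C(n,n/2)/n`. -/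
def ASY_stmt : Prop := ∀ n k : ℕ, 1 ≤ n → k ≤ n → (n : ℝ) / 2 + 6 * Real.sqrt (n * Real.log n) ≤ k → n * TT n k ≤ n.choose (n / 2)

end Pool.Agent.helper72.UP
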