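import Pool.Agent.helper72.UP.Spec

set_option autoImplicit false

namespace Pool.Agent.helper72.UP

open Finset

theorem CRI (h1 : UPB_stmt) (h2 : UPC_stmt) (h3 : LOW_stmt) : CRI_stmt := by
  intro n k hk h
  refine ⟨h3 n k, ?_⟩
  intro m hm
  obtain ⟨x, hx, hm2⟩ := h2 n k m hm
  exact hm2.trans (h1 n k x hk hx h)

end Pool.Agent.helper72.UP
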