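import Pool.Agent.helper72.UP.Spec

set_option autoImplicit false

namespace Pool.Agent.helper72.UP

open Finset

theorem DEC (h : RAT_stmt) : DEC_stmt := by
  intro n i d hn hi hn1
  have hn0 : (0 : ℝ) < n := by exact_mod_cast hn1
  induction d with
  | zero => simp
  | succ d ih =>
    by_cases hc : 2 * (i + d) ≤ n
    · have h1 := h n (i + d) (by omega) hc (by omega)
      have h2 : (uu n (i + d) : ℝ) * Real.exp (-(2 * (4 * ((i + d : ℕ) : ℝ) - n) / n)) ≤
          uu n i * Real.exp (-(4 * (d : ℝ) * ((d : ℝ) - 1) / n)) * Real.exp (-(8 * d / n)) := by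
        refine mul_le_mul ih ?_ (Real.exp_pos _).le (by positivity)
        apply Real.exp_le_exp.2
        rw [neg_le_neg_iff, div_le_div_iff_of_pos_right hn0]
        have h3 : (n : ℝ) ≤ 4 * i := by exact_mod_cast hn
        push_cast
        linarith
      have h4 : uu n i * Real.exp (-(4 * (d : ℝ) * ((d : ℝ) - 1) / n)) * Real.exp (-(8 * d / n)) =
          uu n i * Real.exp (-(4 * ((d + 1 : ℕ) : ℝ) * (((d + 1 : ℕ) : ℝ) - 1) / n)) := by
        rw [mul_assoc, ← Real.exp_add]
        congr 2
        push_cast
        field_simp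
        ring
      rw [← h4]
      exact h1.trans h2
    · have h1 : uu n (i + (d + 1)) = 0 := by
        unfold uu
        rw [Nat.choose_eq_zero_of_lt (show n / 2 < i + (d + 1) by omega), mul_zero]
      rw [h1]
      simp only [Nat.cast_zero]
      positivity

end Pool.Agent.helper72.UP
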