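import Pool.Agent.helper72.UP.Main
import Pool.Agent.helper72.UP.CRI
import Pool.Agent.helper72.UP.DEC
import Pool.Agent.helper82.UP.UPC
import Pool.Agent.helper82.UP.RAT
import Pool.Agent.helper77.UP.FOE2
import Pool.Agent.helper67.UP.STA
import Pool.Agent.helper78.UP.FOO
import Pool.Agent.helper66.UP.LPB
import Pool.Agent.helper54.UP.VAN
import Pool.Agent.helper29.UP.SPL
import Pool.Agent.helper3.UP.BAL
import Pool.Agent.helper5.UP.EQC
import Pool.Agent.helper43.UP.ASY2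
import Pool.Agent.helper22.UP.FLP
import Pool.Agent.helper15.UP.LOW
import Pool.Agent.helper90.UP.LYF
import Pool.Agent.helper58.UP.UPB

/-! # Project UP: all rows together -/

set_option autoImplicit false

namespace Pool.Agent.helper72.UP

open Finset

theorem ALL_STA : STA_stmt := STA LPB FOE FOO LYF SPL

theorem ALL_CRI : CRI_stmt := CRI (UPB VAN BAL ALL_STA FLP EQC) UPC (LOW EQC)

theorem ALL_ASY : ASY_stmt := ASY (DEC RAT) VAN

theorem ALL_crit (n k : ℕ) (hk : k ≤ n) (h : n * (n.choose (n / 2) - 1 - VV n k) ≤ n.choose (n / 2)) :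
    IsGreatest (sizes n k) (VV n k) := MAIN_crit VAN ALL_CRI n k hk h

theorem ALL_asy (n k : ℕ) (hk1 : 1 ≤ k) (hk : k ≤ n) (h : (n : ℝ) / 2 + 6 * Real.sqrt (n * Real.log n) ≤ k) :
    IsGreatest (sizes n k) (VV n k) := MAIN_asy ALL_CRI ALL_ASY n k hk1 hk h

theorem ALL_sta (n : ℕ) (x : Fin n → ℝ) (hx : ∀ i, x i ≠ 0) (h : ∃ i j, |x i| ≠ |x j|) :
    n * cnt x 0 ≤ (n - 1) * n.choose (n / 2) := MAIN_sta ALL_STA FLP n x hx h

end Pool.Agent.helper72.UP
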