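import Pool.Agent.helper72.UP.Spec

/-! # Project UP: the theorem from the rows -/

set_option autoImplicit false

namespace Pool.Agent.helper72.UP

open Finset

theorem MAIN_crit (van : VAN_stmt) (cri : CRI_stmt) (n k : ℕ) (hk : k ≤ n)
    (h : n * (n.choose (n / 2) - 1 - VV n k) ≤ n.choose (n / 2)) : IsGreatest (sizes n k) (VV n k) := by
  have h1 := van n k hk
  have h2 : TT n k = n.choose (n / 2) - 1 - VV n k := by omega
  exact cri n k hk (by rw [h2]; exact h)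

theorem MAIN_asy (cri : CRI_stmt) (asy : ASY_stmt) (n k : ℕ) (hk1 : 1 ≤ k) (hk : k ≤ n)
    (h : (n : ℝ) / 2 + 6 * Real.sqrt (n * Real.log n) ≤ k) : IsGreatest (sizes n k) (VV n k) :=
  cri n k hk (asy n k (hk1.trans hk) hk h)

theorem MAIN_sta (sta : STA_stmt) (flp : FLP_stmt) (n : ℕ) (x : Fin n → ℝ) (hx : ∀ i, x i ≠ 0)
    (h : ∃ i j, |x i| ≠ |x j|) : n * cnt x 0 ≤ (n - 1) * n.choose (n / 2) := by
  obtain ⟨T, hT⟩ := flp n x
  rw [hT]
  obtain ⟨i, j, hij⟩ := h
  rcases lt_or_gt_of_ne hij with h1 | h1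
  · exact sta n (fun i => |x i|) i j T (fun a => abs_pos.2 (hx a)) h1
  · exact sta n (fun i => |x i|) j i T (fun a => abs_pos.2 (hx a)) h1

end Pool.Agent.helper72.UP
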